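import Mathlib

/-! Intervals of the Fenwick tree: the natural number `n` covers the `2 ^ v(n)` numbers
`n + 1 - 2 ^ v(n), …, n`, where `v(n)` is the `2`-adic valuation of `n + 1`. -/

set_option autoImplicit false

open Filter Topology

namespace Pool.Agent.Helper509.BD

/-- the `2`-adic valuation of `n + 1` -/
def v (n : ℕ) : ℕ := padicValNat 2 (n + 1)

/-- the length of the interval of `n` -/
def L (n : ℕ) : ℕ := 2 ^ v n

lemma L_pos (n : ℕ) : 0 < L n := Nat.pos_of_ne_zero (by simp [L])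

lemma L_dvd (n : ℕ) : L n ∣ n + 1 := pow_padicValNat_dvd

lemma L_le (n : ℕ) : L n ≤ n + 1 := Nat.le_of_dvd (Nat.succ_pos n) (L_dvd n)

/-- the interval of `n` -/
def cov (n : ℕ) : Finset ℕ := Finset.Ico (n + 1 - L n) (n + 1)

lemma card_cov (n : ℕ) : (cov n).card = L n := by
  have := L_le n
  simp only [cov, Nat.card_Ico]
  omega

lemma mem_cov {s n : ℕ} : s ∈ cov n ↔ s ≤ n ∧ n < s + L n := by
  simp only [cov, Finset.mem_Ico]
  omega

lemma v_inj {s m n : ℕ} (hm : s ∈ cov m) (hn : s ∈ cov n) (h : v m = v n) : m = n := by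
  wlog hmn : m ≤ n generalizing m n
  · exact (this hn hm h.symm (le_of_not_ge hmn)).symm
  have hL : L m = L n := by simp [L, h]
  have h1 := L_dvd m
  have h2 := L_dvd n
  rw [hL] at h1
  have h3 : L n ∣ (n + 1) - (m + 1) := Nat.dvd_sub h2 h1
  have h4 := (mem_cov.1 hm)
  have h5 := (mem_cov.1 hn)
  have h6 : (n + 1) - (m + 1) = 0 := Nat.eq_zero_of_dvd_of_lt h3 (by omega)
  omega

/-! ### geometric sums -/

/-- `1 / √2` -/
noncomputable def r : ℝ := (√2)⁻¹

lemma r_pos : 0 < r := by unfold r; positivity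

lemma r_sq : r ^ 2 = 1 / 2 := by
  unfold r
  rw [inv_pow, Real.sq_sqrt (by norm_num)]
  norm_num

lemma r_le : r ≤ 3 / 4 := by
  have h := r_sq
  have h1 := r_pos
  nlinarith

lemma r_lt_one : r < 1 := by linarith [r_le]

lemma L_r (n : ℕ) : (L n : ℝ) * (r ^ v n) ^ 2 = 1 := by
  rw [← pow_mul, mul_comm (v n) 2, pow_mul, r_sq, L]
  push_cast
  rw [← mul_pow]
  norm_num

lemma r_eq (n : ℕ) : r ^ v n = (√(L n : ℝ))⁻¹ := by
  have h := L_r n
  have hL : (0 : ℝ) < L n := by exact_mod_cast L_pos n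
  have h1 : 0 < √(L n : ℝ) := Real.sqrt_pos.2 hL
  have h2 : 0 < r ^ v n := pow_pos r_pos _
  have h3 : (√(L n : ℝ) * r ^ v n) ^ 2 = 1 := by
    rw [mul_pow, Real.sq_sqrt hL.le, h]
  have h4 : √(L n : ℝ) * r ^ v n = 1 := by
    have h5 : 0 < √(L n : ℝ) * r ^ v n := mul_pos h1 h2
    nlinarith
  exact eq_inv_of_mul_eq_one_right h4

lemma geomB (B : Finset ℕ) (hinj : Set.InjOn v B) (j : ℕ) (h : ∀ n ∈ B, j ≤ v n) :
    ∑ n ∈ B, r ^ v n ≤ 4 * r ^ j := by
  classical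
  have h1 : ∑ n ∈ B, r ^ v n = ∑ i ∈ B.image v, r ^ i :=
    (Finset.sum_image (fun a ha b hb hab => hinj ha hb hab)).symm
  rw [h1]
  obtain ⟨M, hM⟩ : ∃ M, B.image v ⊆ Finset.Ico j M := by
    refine ⟨(B.image v).sup id + 1, fun i hi => ?_⟩
    rw [Finset.mem_Ico]
    refine ⟨?_, ?_⟩
    · obtain ⟨n, hn, rfl⟩ := Finset.mem_image.1 hi
      exact h n hn
    · exact Nat.lt_succ_of_le (Finset.le_sup (f := id) hi)
  refine (Finset.sum_le_sum_of_subset_of_nonneg hM fun i _ _ => (pow_pos r_pos i).le).trans ?_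
  refine (geom_sum_Ico_le_of_lt_one r_pos.le r_lt_one).trans ?_
  rw [div_le_iff₀ (by linarith [r_le])]
  have := pow_pos r_pos j
  nlinarith [r_le]

lemma geom_sq (B : Finset ℕ) (hinj : Set.InjOn v B) :
    (∑ n ∈ B, r ^ v n) ^ 2 ≤ 16 * ∑ n ∈ B, (r ^ v n) ^ 2 := by
  rcases B.eq_empty_or_nonempty with rfl | hB
  · simp
  obtain ⟨n0, hn0, hmin⟩ := Finset.exists_min_image B v hB
  have h1 := geomB B hinj (v n0) hmin
  have h2 : (r ^ v n0) ^ 2 ≤ ∑ n ∈ B, (r ^ v n) ^ 2 :=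
    Finset.single_le_sum (f := fun n => (r ^ v n) ^ 2) (fun n _ => sq_nonneg _) hn0
  have h3 : 0 ≤ ∑ n ∈ B, r ^ v n := Finset.sum_nonneg fun n _ => (pow_pos r_pos _).le
  have h4 : 0 < r ^ v n0 := pow_pos r_pos _
  nlinarith

/-- the matrix -/
noncomputable def w (n s : ℕ) : ℝ := if s ∈ cov n then r ^ v n else 0

lemma w_nonneg (n s : ℕ) : 0 ≤ w n s := by
  unfold w; split_ifs
  · exact (pow_pos r_pos _).le
  · exact le_rfl

lemma injOn_cov (s : ℕ) (B : Finset ℕ) (h : ∀ n ∈ B, s ∈ cov n) : Set.InjOn v (B : Set ℕ) :=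
  fun a ha b hb hab => v_inj (h a ha) (h b hb) hab

lemma sum_w (B : Finset ℕ) (s : ℕ) (f : ℕ → ℝ) :
    ∑ n ∈ B, f n * w n s = ∑ n ∈ B with s ∈ cov n, f n * r ^ v n := by
  rw [Finset.sum_filter]
  refine Finset.sum_congr rfl fun n _ => ?_
  unfold w
  split_ifs <;> simp

lemma sum_w_sq (n : ℕ) (S : Finset ℕ) : ∑ s ∈ S, (w n s) ^ 2 ≤ 1 := by
  have h1 : ∀ s, (w n s) ^ 2 = if s ∈ cov n then (r ^ v n) ^ 2 else 0 := by
    intro s; unfold w; split_ifs <;> simp
  simp only [h1]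
  rw [← Finset.sum_filter, Finset.sum_const, nsmul_eq_mul]
  have h2 : ((Finset.filter (fun s => s ∈ cov n) S).card : ℝ) ≤ L n := by
    rw [← card_cov n]
    exact_mod_cast Finset.card_le_card fun s hs => (Finset.mem_filter.1 hs).2
  calc _ ≤ (L n : ℝ) * (r ^ v n) ^ 2 := by gcongr
    _ = 1 := L_r n

/-- democracy, in coordinates -/
lemma dem (A : Finset ℕ) (S : Finset ℕ) :
    ∑ s ∈ S, (∑ n ∈ A, w n s) ^ 2 ≤ 16 * A.card := by
  have h1 : ∀ s, (∑ n ∈ A, w n s) ^ 2 ≤ 16 * ∑ n ∈ A, (w n s) ^ 2 := by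
    intro s
    have h2 := sum_w A s (fun _ => 1)
    simp only [one_mul] at h2
    have h3 : ∑ n ∈ A, (w n s) ^ 2 = ∑ n ∈ A with s ∈ cov n, (r ^ v n) ^ 2 := by
      rw [Finset.sum_filter]
      refine Finset.sum_congr rfl fun n _ => ?_
      unfold w
      split_ifs <;> simp
    rw [h2, h3]
    exact geom_sq _ (injOn_cov s _ fun n hn => (Finset.mem_filter.1 hn).2)
  calc ∑ s ∈ S, (∑ n ∈ A, w n s) ^ 2 ≤ ∑ s ∈ S, 16 * ∑ n ∈ A, (w n s) ^ 2 :=
        Finset.sum_le_sum fun s _ => h1 s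
    _ = 16 * ∑ n ∈ A, ∑ s ∈ S, (w n s) ^ 2 := by
        rw [← Finset.mul_sum, Finset.sum_comm]
    _ ≤ 16 * ∑ n ∈ A, (1 : ℝ) := by
        gcongr with n _
        exact sum_w_sq n S
    _ = _ := by rw [Finset.sum_const, nsmul_eq_mul, mul_one]

/-! ### partial sums -/

lemma sum_inv_sqrt (m : ℕ) : ∑ d ∈ Finset.range m, (√((d : ℝ) + 1))⁻¹ ≤ 2 * √m := by
  induction m with
  | zero => simp
  | succ m ih =>
    rw [Finset.sum_range_succ]
    have h0 : (0 : ℝ) ≤ m := Nat.cast_nonneg m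
    have h1 : (√((m : ℝ) + 1))⁻¹ ≤ 2 * √((m : ℝ) + 1) - 2 * √m := by
      have h2 : 0 < √((m : ℝ) + 1) := Real.sqrt_pos.2 (by linarith)
      have h3 : √((m : ℝ) + 1) ^ 2 = m + 1 := Real.sq_sqrt (by linarith)
      have h4 : √(m : ℝ) ^ 2 = m := Real.sq_sqrt h0
      have h5 : 0 ≤ √(m : ℝ) := Real.sqrt_nonneg _
      rw [inv_le_iff_one_le_mul₀ h2]
      nlinarith [sq_nonneg (√((m : ℝ) + 1) - √m)]
    push_cast
    linarith

lemma sum_tail (N n : ℕ) (hn : N ≤ n) :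
    ∑ s ∈ Finset.range N with s ∈ cov n, (√((N : ℝ) - s))⁻¹ ≤ 2 * √(L n : ℝ) := by
  classical
  have h1 : ∑ s ∈ Finset.range N with s ∈ cov n, (√((N : ℝ) - s))⁻¹ =
      ∑ d ∈ (Finset.filter (fun s => s ∈ cov n) (Finset.range N)).image (fun s => N - s - 1),
        (√((d : ℝ) + 1))⁻¹ := by
    rw [Finset.sum_image]
    · refine Finset.sum_congr rfl fun s hs => ?_
      have hs' := Finset.mem_range.1 (Finset.mem_filter.1 hs).1
      congr 2
      have : ((N - s - 1 : ℕ) : ℝ) = (N : ℝ) - s - 1 := by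
        rw [Nat.cast_sub (by omega), Nat.cast_sub (by omega)]
        simp
      rw [this]; ring
    · intro a ha b hb hab
      have ha' := Finset.mem_range.1 (Finset.mem_filter.1 ha).1
      have hb' := Finset.mem_range.1 (Finset.mem_filter.1 hb).1
      simp only at hab
      omega
  rw [h1]
  refine le_trans (Finset.sum_le_sum_of_subset_of_nonneg (t := Finset.range (L n)) ?_ ?_)
    (sum_inv_sqrt (L n))
  · intro d hd
    obtain ⟨s, hs, rfl⟩ := Finset.mem_image.1 hd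
    have h2 := mem_cov.1 (Finset.mem_filter.1 hs).2
    have h3 := Finset.mem_range.1 (Finset.mem_filter.1 hs).1
    rw [Finset.mem_range]
    omega
  · intro i _ _
    positivity

/-- the key estimate for the partial sums, in coordinates -/
lemma part (F : Finset ℕ) (N : ℕ) (hF : ∀ n ∈ F, N ≤ n) (u : ℕ → ℝ) :
    ∑ s ∈ Finset.range N, (∑ n ∈ F, u n * w n s) ^ 2 ≤ 8 * ∑ n ∈ F, (u n) ^ 2 := by
  have h1 : ∀ s ∈ Finset.range N, (∑ n ∈ F, u n * w n s) ^ 2 ≤
      4 * ∑ n ∈ F, ((u n) ^ 2 * r ^ v n) * (if s ∈ cov n then (√((N : ℝ) - s))⁻¹ else 0) := by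
    intro s hs
    have hsN := Finset.mem_range.1 hs
    rw [sum_w]
    set Z := Finset.filter (fun n => s ∈ cov n) F with hZ
    have h2 : (∑ n ∈ Z, u n * r ^ v n) ^ 2 ≤
        (∑ n ∈ Z, (u n) ^ 2 * r ^ v n) * ∑ n ∈ Z, r ^ v n := by
      refine Finset.sum_sq_le_sum_mul_sum_of_sq_le_mul _ ?_ ?_ ?_
      · intro n _
        exact mul_nonneg (sq_nonneg _) (pow_pos r_pos _).le
      · intro n _
        exact (pow_pos r_pos _).le
      · intro n _
        exact le_of_eq (by ring)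
    have h3 : ∑ n ∈ Z, r ^ v n ≤ 4 * (√((N : ℝ) - s))⁻¹ := by
      rcases Z.eq_empty_or_nonempty with hE | hE
      · rw [hE, Finset.sum_empty]; positivity
      obtain ⟨n0, hn0, hmin⟩ := Finset.exists_min_image Z v hE
      have h4 := geomB Z (injOn_cov s _ fun n hn => (Finset.mem_filter.1 hn).2) (v n0) hmin
      have h5 : r ^ v n0 ≤ (√((N : ℝ) - s))⁻¹ := by
        rw [r_eq]
        have h6 := mem_cov.1 (Finset.mem_filter.1 hn0).2
        have h7 := hF n0 (Finset.mem_filter.1 hn0).1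
        have h8 : (N : ℝ) - s ≤ L n0 := by
          have h9 : N ≤ L n0 + s := by omega
          have h10 : (N : ℝ) ≤ L n0 + s := by exact_mod_cast h9
          linarith
        have h9 : (0 : ℝ) < (N : ℝ) - s := by
          have : (s : ℝ) < N := by exact_mod_cast hsN
          linarith
        exact inv_anti₀ (Real.sqrt_pos.2 h9) (Real.sqrt_le_sqrt h8)
      linarith
    have h4 : ∑ n ∈ F, ((u n) ^ 2 * r ^ v n) * (if s ∈ cov n then (√((N : ℝ) - s))⁻¹ else 0) =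
        (∑ n ∈ Z, (u n) ^ 2 * r ^ v n) * (√((N : ℝ) - s))⁻¹ := by
      rw [hZ, Finset.sum_filter, Finset.sum_mul]
      refine Finset.sum_congr rfl fun n _ => ?_
      split_ifs <;> simp
    rw [h4]
    have h5 : 0 ≤ ∑ n ∈ Z, (u n) ^ 2 * r ^ v n :=
      Finset.sum_nonneg fun n _ => mul_nonneg (sq_nonneg _) (pow_pos r_pos _).le
    nlinarith
  refine (Finset.sum_le_sum h1).trans ?_
  rw [← Finset.mul_sum, Finset.sum_comm]
  have h2 : ∀ n ∈ F, ∑ s ∈ Finset.range N, ((u n) ^ 2 * r ^ v n) *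
      (if s ∈ cov n then (√((N : ℝ) - s))⁻¹ else 0) ≤ 2 * (u n) ^ 2 := by
    intro n hn
    rw [← Finset.mul_sum, ← Finset.sum_filter]
    have h3 := sum_tail N n (hF n hn)
    have h4 : 0 ≤ (u n) ^ 2 * r ^ v n := mul_nonneg (sq_nonneg _) (pow_pos r_pos _).le
    have h5 : (u n) ^ 2 * r ^ v n * (2 * √(L n : ℝ)) = 2 * (u n) ^ 2 := by
      rw [r_eq]
      have : 0 < √(L n : ℝ) := Real.sqrt_pos.2 (by exact_mod_cast L_pos n)
      field_simp
    calc _ ≤ (u n) ^ 2 * r ^ v n * (2 * √(L n : ℝ)) := mul_le_mul_of_nonneg_left h3 h4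
      _ = _ := h5
  calc _ ≤ 4 * ∑ n ∈ F, 2 * (u n) ^ 2 := by
        gcongr with n hn
        exact h2 n hn
    _ = _ := by rw [← Finset.mul_sum]; ring

/-! ### the test vectors -/

lemma L_even (m : ℕ) : L (2 * m) = 1 := by
  unfold L v
  rw [padicValNat.eq_zero_of_not_dvd (by omega)]
  simp

lemma L_odd (m : ℕ) : L (2 * m + 1) = 2 * L m := by
  unfold L v
  have h1 : 2 * m + 1 + 1 = 2 * (m + 1) := by ring
  rw [h1, padicValNat.mul (by norm_num) (by omega), padicValNat_self]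
  ring

lemma sum_even_odd (g : ℕ → ℕ) (N : ℕ) :
    ∑ n ∈ Finset.range (2 * N), g n = ∑ m ∈ Finset.range N, (g (2 * m) + g (2 * m + 1)) := by
  induction N with
  | zero => simp
  | succ N ih =>
    have h1 : 2 * (N + 1) = 2 * N + 1 + 1 := by ring
    rw [h1, Finset.sum_range_succ, Finset.sum_range_succ, ih, Finset.sum_range_succ]
    ring

lemma sum_L (k : ℕ) : 2 * ∑ n ∈ Finset.range (2 ^ k), L n = (k + 2) * 2 ^ k := by
  induction k with
  | zero =>
    simp only [pow_zero, Finset.sum_range_one]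
    have : L 0 = 1 := L_even 0
    rw [this]
  | succ k ih =>
    have h1 : (2 : ℕ) ^ (k + 1) = 2 * 2 ^ k := by ring
    rw [h1, sum_even_odd]
    simp only [L_even, L_odd]
    rw [Finset.sum_add_distrib, ← Finset.mul_sum, Finset.sum_const, Finset.card_range, mul_add, ih]
    simp only [smul_eq_mul, mul_one]
    ring

lemma test_low (k : ℕ) :
    (k : ℝ) ^ 2 * 2 ^ k ≤ 4 * ∑ s ∈ Finset.range (2 ^ k),
      (∑ n ∈ Finset.range (2 ^ k), √(L n : ℝ) * w n s) ^ 2 := by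
  have h1 : ∀ s, ∑ n ∈ Finset.range (2 ^ k), √(L n : ℝ) * w n s =
      ∑ n ∈ Finset.range (2 ^ k), if s ∈ cov n then (1 : ℝ) else 0 := by
    intro s
    refine Finset.sum_congr rfl fun n _ => ?_
    unfold w
    split_ifs with h
    · rw [r_eq]
      have : 0 < √(L n : ℝ) := Real.sqrt_pos.2 (by exact_mod_cast L_pos n)
      exact mul_inv_cancel₀ this.ne'
    · simp
  simp only [h1]
  have h2 := sq_sum_le_card_mul_sum_sq (s := Finset.range (2 ^ k))
    (f := fun s => ∑ n ∈ Finset.range (2 ^ k), if s ∈ cov n then (1 : ℝ) else 0)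
  have h3 : ∑ s ∈ Finset.range (2 ^ k), ∑ n ∈ Finset.range (2 ^ k),
      (if s ∈ cov n then (1 : ℝ) else 0) = ∑ n ∈ Finset.range (2 ^ k), (L n : ℝ) := by
    rw [Finset.sum_comm]
    refine Finset.sum_congr rfl fun n hn => ?_
    rw [← Finset.sum_filter, Finset.sum_const, nsmul_eq_mul, mul_one, ← card_cov n]
    congr 2
    ext s
    simp only [Finset.mem_filter, Finset.mem_range, and_iff_right_iff_imp]
    intro hs
    have := (mem_cov.1 hs).1
    have := Finset.mem_range.1 hn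
    omega
  rw [h3, Finset.card_range] at h2
  have h4 : 2 * ∑ n ∈ Finset.range (2 ^ k), (L n : ℝ) = (k + 2) * 2 ^ k := by
    exact_mod_cast sum_L k
  have h5 : (∑ n ∈ Finset.range (2 ^ k), (L n : ℝ)) = (k + 2) * 2 ^ k / 2 := by linarith
  rw [h5] at h2
  push_cast at h2
  have h6 : (0 : ℝ) < 2 ^ k := by positivity
  set Q := ∑ s ∈ Finset.range (2 ^ k),
    (∑ n ∈ Finset.range (2 ^ k), if s ∈ cov n then (1 : ℝ) else 0) ^ 2 with hQ
  have h7 : ((k : ℝ) + 2) ^ 2 * 2 ^ k * 2 ^ k ≤ 4 * Q * 2 ^ k := by nlinarith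
  have h8 : ((k : ℝ) + 2) ^ 2 * 2 ^ k ≤ 4 * Q := le_of_mul_le_mul_right h7 h6
  have h9 : (0 : ℝ) ≤ k := Nat.cast_nonneg k
  nlinarith

lemma count (N m : ℕ) :
    (Finset.filter (fun i => N < L i * (m + 1)) (Finset.range N)).card ≤ m := by
  set J := Finset.filter (fun i => N < L i * (m + 1)) (Finset.range N) with hJ
  rcases J.eq_empty_or_nonempty with hE | hE
  · rw [hE]; simp
  obtain ⟨i0, hi0, hmin⟩ := Finset.exists_min_image J v hE
  have h1 : J ⊆ Finset.filter (fun e => L i0 ∣ e + 1) (Finset.range N) := by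
    intro i hi
    rw [Finset.mem_filter]
    refine ⟨(Finset.mem_filter.1 hi).1, ?_⟩
    refine dvd_trans ?_ (L_dvd i)
    exact pow_dvd_pow 2 (hmin i hi)
  have h2 := Finset.card_le_card h1
  rw [Nat.card_multiples] at h2
  have h3 := (Finset.mem_filter.1 hi0).2
  have h4 : N / L i0 < m + 1 := Nat.div_lt_of_lt_mul h3
  omega

end Pool.Agent.Helper509.BD
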