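import Mathlib

/-! Bidemocratic bases of `ℓ₂` and Lorentz sequence spaces: definitions. -/

set_option autoImplicit false

open Filter Topology
open scoped ENNReal NNReal

universe u v

namespace Pool.Agent.Helper509.BD

variable (𝕜 : Type u) [RCLike 𝕜]

/-- The Hilbert space `ℓ₂` of square summable sequences of scalars. -/
abbrev H2 : Type u := lp (fun _ : ℕ => 𝕜) 2

variable {𝕜}

/-- `x` is a basis of `ℓ₂` with the biorthogonal functionals `xs`: the span is dense, the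
functionals are biorthogonal to `x` and separate points, and both sequences are bounded. -/
structure IsBasis (x : ℕ → H2 𝕜) (xs : ℕ → StrongDual 𝕜 (H2 𝕜)) : Prop where
  dense : Dense (Submodule.span 𝕜 (Set.range x) : Set (H2 𝕜))
  biorth : ∀ n k, xs n (x k) = if n = k then 1 else 0
  sep : ∀ f : H2 𝕜, (∀ n, xs n f = 0) → f = 0
  bdd : ∃ C : ℝ, ∀ n, ‖x n‖ ≤ C ∧ ‖xs n‖ ≤ C

/-- The expansion of every `f` converges to `f`. -/
def IsSchauder (x : ℕ → H2 𝕜) (xs : ℕ → StrongDual 𝕜 (H2 𝕜)) : Prop :=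
  ∀ f : H2 𝕜, Tendsto (fun N => ∑ n ∈ Finset.range N, xs n f • x n) atTop (𝓝 f)

/-- `φ_m`: the supremum of the norms `‖∑_{n ∈ A} ε_n x_n‖` over the sets `A` of cardinality at most
`m` and the unimodular scalars `ε_n`. -/
noncomputable def phi {E : Type v} [NormedAddCommGroup E] [NormedSpace 𝕜 E] (x : ℕ → E) (m : ℕ) :
    ℝ :=
  sSup {t : ℝ | ∃ (A : Finset ℕ) (ε : ℕ → 𝕜), A.card ≤ m ∧ (∀ n, ‖ε n‖ = 1) ∧
    t = ‖∑ n ∈ A, ε n • x n‖}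

/-- The basis `x` with the biorthogonal functionals `xs` is bidemocratic. -/
def Bidemocratic (x : ℕ → H2 𝕜) (xs : ℕ → StrongDual 𝕜 (H2 𝕜)) : Prop :=
  ∃ C : ℝ, ∀ m : ℕ, 1 ≤ m → phi (𝕜 := 𝕜) x m * phi (𝕜 := 𝕜) xs m ≤ C * m

/-- The non-increasing rearrangement of `|a|`: its value at `n + 1` (in `[0, ∞]`) is the least `l`
such that at most `n` of the `|a_i|` exceed `l`. -/
noncomputable def rearr (a : ℕ → 𝕜) (n : ℕ) : ℝ≥0∞ :=
  sInf {l : ℝ≥0∞ | {i | l < ‖a i‖ₑ}.encard ≤ n}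

/-- The Lorentz norm `‖a‖_{2,s} = (∑_{n ≥ 1} (a*_n)^s n^{s/2-1})^{1/s}`, with values in `[0, ∞]`. -/
noncomputable def lorentz (s : ℝ) (a : ℕ → 𝕜) : ℝ≥0∞ :=
  (∑' n : ℕ, rearr a n ^ s * ((n : ℝ≥0∞) + 1) ^ (s / 2 - 1)) ^ (1 / s)

/-- `ℓ_{2,q} ↪ ℓ₂` through the basis `x`. -/
def EmbInto (q : ℝ) (x : ℕ → H2 𝕜) : Prop :=
  ∃ C : ℝ≥0, ∀ a : ℕ →₀ 𝕜, ‖∑ n ∈ a.support, a n • x n‖ₑ ≤ C * lorentz q a

/-- `ℓ₂ ↪ ℓ_{2,r}` through the basis with the biorthogonal functionals `xs`. -/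
def EmbFrom (r : ℝ) (xs : ℕ → StrongDual 𝕜 (H2 𝕜)) : Prop :=
  ∃ C : ℝ≥0, ∀ f : H2 𝕜, lorentz r (fun n => xs n f) ≤ C * ‖f‖ₑ

end Pool.Agent.Helper509.BD
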