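import Pool.Agent.Helper509.BD.Main

/-! The basis of `ℓ₂`. -/

set_option autoImplicit false

open Filter Topology
open scoped ENNReal NNReal

universe u

namespace Pool.Agent.Helper509.BD

variable {𝕜 : Type u} [RCLike 𝕜]

/-! ### transfer to `ℓ₂` -/

/-- the closed span -/
noncomputable abbrev HH (𝕜 : Type u) [RCLike 𝕜] : Submodule 𝕜 (BB 𝕜) :=
  (Submodule.span 𝕜 (Set.range (X : ℕ → BB 𝕜))).topologicalClosure

/-- the sequence in the closed span -/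
noncomputable def xt (n : ℕ) : HH 𝕜 :=
  ⟨X n, Submodule.le_topologicalClosure _ (Submodule.subset_span ⟨n, rfl⟩)⟩

lemma xt_coe (n : ℕ) : ((xt n : HH 𝕜) : BB 𝕜) = X n := rfl

lemma sum_xt_coe (F : Finset ℕ) (u : ℕ → 𝕜) :
    ((∑ n ∈ F, u n • (xt n : HH 𝕜) : HH 𝕜) : BB 𝕜) = ∑ n ∈ F, u n • (X n : BB 𝕜) := by
  rw [Submodule.coe_sum]
  exact Finset.sum_congr rfl fun n _ => rfl

lemma xt_indep : LinearIndependent 𝕜 (xt : ℕ → HH 𝕜) := by
  rw [linearIndependent_iff']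
  intro s g hg i hi
  have h1 : cf i ((∑ n ∈ s, g n • (xt n : HH 𝕜) : HH 𝕜) : BB 𝕜) = cf i ((0 : HH 𝕜) : BB 𝕜) := by
    rw [hg]
  rw [sum_xt_coe, cf_sum_X, if_pos hi] at h1
  rw [h1]
  exact map_zero (cf i)

lemma xt_tendsto (y : HH 𝕜) :
    Tendsto (fun N => ∑ n ∈ Finset.range N, cf n (y : BB 𝕜) • (xt n : HH 𝕜)) atTop (𝓝 y) := by
  rw [tendsto_subtype_rng]
  refine (S_tendsto (y : BB 𝕜) y.2).congr fun N => ?_
  rw [sum_xt_coe (Finset.range N) (fun n => cf n (y : BB 𝕜)), S_apply]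

lemma xt_dense : (⊤ : Submodule 𝕜 (HH 𝕜)) ≤
    (Submodule.span 𝕜 (Set.range (xt : ℕ → HH 𝕜))).topologicalClosure := by
  intro y _
  refine mem_closure_of_tendsto (xt_tendsto y) (Eventually.of_forall fun N => ?_)
  exact Submodule.sum_mem _ fun n _ => Submodule.smul_mem _ _ (Submodule.subset_span ⟨n, rfl⟩)

/-- the Hilbert basis of the closed span -/
noncomputable def hb (𝕜 : Type u) [RCLike 𝕜] : HilbertBasis ℕ 𝕜 (HH 𝕜) :=
  HilbertBasis.mk (v := InnerProductSpace.gramSchmidtNormed 𝕜 (xt : ℕ → HH 𝕜))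
    (InnerProductSpace.gramSchmidtNormed_orthonormal xt_indep) (by
      rw [InnerProductSpace.span_gramSchmidtNormed_range, InnerProductSpace.span_gramSchmidt]
      exact xt_dense)

/-- the isometry with `ℓ₂` -/
noncomputable def U (𝕜 : Type u) [RCLike 𝕜] : HH 𝕜 ≃ₗᵢ[𝕜] H2 𝕜 := (hb 𝕜).repr

/-- the basis of `ℓ₂` -/
noncomputable def x (n : ℕ) : H2 𝕜 := U 𝕜 (xt n)

/-- the biorthogonal functionals -/
noncomputable def xs (n : ℕ) : StrongDual 𝕜 (H2 𝕜) :=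
  (cf n : BB 𝕜 →L[𝕜] 𝕜).comp ((HH 𝕜).subtypeL.comp
    ((U 𝕜).symm.toContinuousLinearEquiv : H2 𝕜 →L[𝕜] HH 𝕜))

lemma xs_apply (n : ℕ) (f : H2 𝕜) : xs n f = cf n (((U 𝕜).symm f : HH 𝕜) : BB 𝕜) := rfl

lemma sum_x (F : Finset ℕ) (u : ℕ → 𝕜) :
    ∑ n ∈ F, u n • (x n : H2 𝕜) = U 𝕜 (∑ n ∈ F, u n • (xt n : HH 𝕜)) := by
  rw [map_sum]
  exact Finset.sum_congr rfl fun n _ => (map_smul (U 𝕜) (u n) (xt n)).symm

lemma norm_sum_x (F : Finset ℕ) (u : ℕ → 𝕜) :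
    ‖∑ n ∈ F, u n • (x n : H2 𝕜)‖ = ‖∑ n ∈ F, u n • (X n : BB 𝕜)‖ := by
  rw [sum_x, LinearIsometryEquiv.norm_map, ← sum_xt_coe]
  rfl

lemma schauder : IsSchauder (x : ℕ → H2 𝕜) xs := by
  intro f
  have h1 := ((U 𝕜).continuous.tendsto _).comp (xt_tendsto ((U 𝕜).symm f))
  rw [LinearIsometryEquiv.apply_symm_apply] at h1
  refine h1.congr fun N => ?_
  show U 𝕜 (∑ n ∈ Finset.range N, cf n (((U 𝕜).symm f : HH 𝕜) : BB 𝕜) • xt n) = _
  rw [← sum_x (Finset.range N) (fun n => cf n (((U 𝕜).symm f : HH 𝕜) : BB 𝕜))]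
  rfl

lemma isBasis : IsBasis (x : ℕ → H2 𝕜) xs where
  dense := by
    intro f
    refine mem_closure_of_tendsto (schauder f) (Eventually.of_forall fun N => ?_)
    exact Submodule.sum_mem _ fun n _ => Submodule.smul_mem _ _ (Submodule.subset_span ⟨n, rfl⟩)
  biorth := by
    intro n k
    rw [xs_apply, x, LinearIsometryEquiv.symm_apply_apply, xt_coe, cf_X]
  sep := by
    intro f hf
    have h1 := schauder f
    simp only [hf, zero_smul, Finset.sum_const_zero] at h1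
    exact tendsto_nhds_unique h1 tendsto_const_nhds |>.trans rfl
  bdd := by
    refine ⟨5, fun n => ⟨?_, ?_⟩⟩
    · have h1 := norm_sum_x {n} (fun _ => (1 : 𝕜))
      have h2 := dem_X {n} (fun _ => (1 : 𝕜)) (fun _ => norm_one)
      rw [← h1] at h2
      simpa using h2
    · have h1 : ‖(xs n : StrongDual 𝕜 (H2 𝕜))‖ ≤ 1 := by
        refine ContinuousLinearMap.opNorm_le_bound _ zero_le_one fun f => ?_
        rw [xs_apply]
        refine ((cf n : BB 𝕜 →L[𝕜] 𝕜).le_opNorm _).trans ?_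
        have h2 : ‖(((U 𝕜).symm f : HH 𝕜) : BB 𝕜)‖ = ‖f‖ := (U 𝕜).symm.norm_map f
        rw [h2]
        have h3 := cf_norm (𝕜 := 𝕜) n
        have := norm_nonneg f
        nlinarith
      linarith

lemma phi_nonneg {E : Type u} [NormedAddCommGroup E] [NormedSpace 𝕜 E] (y : ℕ → E) (m : ℕ) :
    0 ≤ phi (𝕜 := 𝕜) y m := by
  refine Real.sSup_nonneg ?_
  rintro t ⟨A, ε, -, -, rfl⟩
  exact norm_nonneg _

lemma phi_x (m : ℕ) : phi (𝕜 := 𝕜) (x : ℕ → H2 𝕜) m ≤ 5 * √m := by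
  refine csSup_le ⟨0, ∅, fun _ => 1, by simp, fun _ => norm_one, by simp⟩ ?_
  rintro t ⟨A, ε, hA, hε, rfl⟩
  rw [norm_sum_x]
  refine (dem_X A ε hε).trans ?_
  have : (A.card : ℝ) ≤ m := by exact_mod_cast hA
  gcongr

lemma phi_xs (m : ℕ) : phi (𝕜 := 𝕜) (xs : ℕ → StrongDual 𝕜 (H2 𝕜)) m ≤ √m := by
  refine csSup_le ⟨0, ∅, fun _ => 1, by simp, fun _ => norm_one, by simp⟩ ?_
  rintro t ⟨A, ε, hA, hε, rfl⟩
  refine ContinuousLinearMap.opNorm_le_bound _ (Real.sqrt_nonneg _) fun f => ?_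
  have h1 : (∑ n ∈ A, ε n • (xs n : StrongDual 𝕜 (H2 𝕜))) f =
      ∑ n ∈ A, ε n * cf n (((U 𝕜).symm f : HH 𝕜) : BB 𝕜) := by
    rw [sum_apply]
    rfl
  rw [h1]
  refine (dem_cf A ε hε _).trans ?_
  have h2 : ‖(((U 𝕜).symm f : HH 𝕜) : BB 𝕜)‖ = ‖f‖ := (U 𝕜).symm.norm_map f
  rw [h2]
  have : (A.card : ℝ) ≤ m := by exact_mod_cast hA
  gcongr

lemma bidem : Bidemocratic (x : ℕ → H2 𝕜) xs := by
  refine ⟨5, fun m _ => ?_⟩
  have h1 := phi_x (𝕜 := 𝕜) m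
  have h2 := phi_xs (𝕜 := 𝕜) m
  have h3 := phi_nonneg (𝕜 := 𝕜) (x : ℕ → H2 𝕜) m
  have h4 := phi_nonneg (𝕜 := 𝕜) (xs : ℕ → StrongDual 𝕜 (H2 𝕜)) m
  have h5 : √(m : ℝ) * √(m : ℝ) = m := Real.mul_self_sqrt (Nat.cast_nonneg m)
  calc _ ≤ 5 * √(m : ℝ) * √(m : ℝ) := mul_le_mul h1 h2 h4 (by positivity)
    _ = 5 * m := by rw [mul_assoc, h5]

/-! ### Lorentz norms of the test vectors -/

lemma harm (k : ℕ) : ∑ m ∈ Finset.range (2 ^ k), ((m : ℝ) + 1)⁻¹ ≤ k + 1 := by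
  induction k with
  | zero => simp
  | succ k ih =>
    have h1 : (2 : ℕ) ^ (k + 1) = 2 ^ k + 2 ^ k := by ring
    rw [h1, Finset.sum_range_add]
    have h2 : ∑ i ∈ Finset.range (2 ^ k), (((2 ^ k + i : ℕ) : ℝ) + 1)⁻¹ ≤ 1 := by
      refine (Finset.sum_le_sum (g := fun _ => ((2 : ℝ) ^ k)⁻¹) fun i _ => ?_).trans ?_
      · push_cast
        refine inv_anti₀ (by positivity) ?_
        have : (0 : ℝ) ≤ i := Nat.cast_nonneg i
        linarith
      · rw [Finset.sum_const, Finset.card_range, nsmul_eq_mul]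
        push_cast
        rw [mul_inv_cancel₀ (by positivity)]
    push_cast at h2 ih ⊢
    linarith

lemma rearr_le (N m : ℕ) (a : ℕ → 𝕜) (ha : ∀ i, i < N → ‖a i‖ = √(L i : ℝ))
    (ha0 : ∀ i, N ≤ i → a i = 0) : rearr a m ≤ ENNReal.ofReal √((N : ℝ) / (m + 1)) := by
  refine sInf_le ?_
  show ({i | ENNReal.ofReal √((N : ℝ) / (m + 1)) < ‖a i‖ₑ} : Set ℕ).encard ≤ m
  have h1 : {i | ENNReal.ofReal √((N : ℝ) / (m + 1)) < ‖a i‖ₑ} ⊆
      (Finset.filter (fun i => N < L i * (m + 1)) (Finset.range N) : Set ℕ) := by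
    intro i hi
    have hi' : ENNReal.ofReal √((N : ℝ) / (m + 1)) < ‖a i‖ₑ := hi
    by_cases hiN : i < N
    · rw [Finset.mem_coe, Finset.mem_filter]
      refine ⟨Finset.mem_range.2 hiN, ?_⟩
      rw [← ofReal_norm, ha i hiN] at hi'
      have h2 := (ENNReal.ofReal_lt_ofReal_iff_of_nonneg (Real.sqrt_nonneg _)).1 hi'
      have h3 := (Real.sqrt_lt_sqrt_iff (by positivity)).1 h2
      rw [div_lt_iff₀ (by positivity)] at h3
      exact_mod_cast h3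
    · rw [ha0 i (not_lt.1 hiN)] at hi'
      simp at hi'
  refine (Set.encard_le_encard h1).trans ?_
  rw [Set.encard_coe_eq_coe_finsetCard]
  exact_mod_cast count N m

lemma rearr_zero (N m : ℕ) (hm : N ≤ m) (a : ℕ → 𝕜) (ha0 : ∀ i, N ≤ i → a i = 0) :
    rearr a m = 0 := by
  refine le_antisymm (sInf_le ?_) bot_le
  show ({i | (0 : ℝ≥0∞) < ‖a i‖ₑ} : Set ℕ).encard ≤ m
  have h1 : {i | (0 : ℝ≥0∞) < ‖a i‖ₑ} ⊆ (Finset.range N : Set ℕ) := by
    intro i hi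
    rw [Finset.mem_coe, Finset.mem_range]
    by_contra h
    have hi' : (0 : ℝ≥0∞) < ‖a i‖ₑ := hi
    rw [ha0 i (not_lt.1 h)] at hi'
    simp at hi'
  refine (Set.encard_le_encard h1).trans ?_
  rw [Set.encard_coe_eq_coe_finsetCard, Finset.card_range]
  exact_mod_cast hm

lemma lorentz_le (q : ℝ) (hq : 0 < q) (k : ℕ) (a : ℕ → 𝕜)
    (ha : ∀ i, i < 2 ^ k → ‖a i‖ = √(L i : ℝ)) (ha0 : ∀ i, 2 ^ k ≤ i → a i = 0) :
    lorentz q a ≤ ENNReal.ofReal (√(2 ^ k : ℝ) * ((k : ℝ) + 1) ^ (1 / q)) := by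
  unfold lorentz
  have h1 : ∑' n : ℕ, rearr a n ^ q * ((n : ℝ≥0∞) + 1) ^ (q / 2 - 1) =
      ∑ n ∈ Finset.range (2 ^ k), rearr a n ^ q * ((n : ℝ≥0∞) + 1) ^ (q / 2 - 1) := by
    refine tsum_eq_sum fun n hn => ?_
    rw [Finset.mem_range, not_lt] at hn
    rw [rearr_zero (2 ^ k) n hn a ha0, ENNReal.zero_rpow_of_pos hq, zero_mul]
  have h2 : ∀ n ∈ Finset.range (2 ^ k), rearr a n ^ q * ((n : ℝ≥0∞) + 1) ^ (q / 2 - 1) ≤
      ENNReal.ofReal (((2 : ℝ) ^ k) ^ (q / 2) * ((n : ℝ) + 1)⁻¹) := by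
    intro n _
    have h3 := rearr_le (2 ^ k) n a ha ha0
    have hn : (0 : ℝ) < (n : ℝ) + 1 := by positivity
    have h4 : ((n : ℝ≥0∞) + 1) = ENNReal.ofReal ((n : ℝ) + 1) := by
      rw [ENNReal.ofReal_add (Nat.cast_nonneg n) zero_le_one, ENNReal.ofReal_natCast,
        ENNReal.ofReal_one]
    have h5 : rearr a n ^ q ≤ ENNReal.ofReal (√(((2 ^ k : ℕ) : ℝ) / (n + 1)) ^ q) := by
      rw [← ENNReal.ofReal_rpow_of_nonneg (Real.sqrt_nonneg _) hq.le]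
      exact ENNReal.rpow_le_rpow h3 hq.le
    rw [h4, ENNReal.ofReal_rpow_of_pos hn]
    refine (mul_le_mul_left h5 _).trans ?_
    rw [← ENNReal.ofReal_mul (by positivity)]
    refine ENNReal.ofReal_le_ofReal (le_of_eq ?_)
    push_cast
    have hN : (0 : ℝ) < 2 ^ k := by positivity
    rw [Real.sqrt_eq_rpow, ← Real.rpow_mul (by positivity), Real.div_rpow hN.le hn.le,
      show (1 / 2 * q : ℝ) = q / 2 by ring, div_mul_eq_mul_div, mul_div_assoc,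
      ← Real.rpow_sub hn, show (q / 2 - 1 - q / 2 : ℝ) = -1 by ring, Real.rpow_neg_one]
  have h3 : ∑' n : ℕ, rearr a n ^ q * ((n : ℝ≥0∞) + 1) ^ (q / 2 - 1) ≤
      ENNReal.ofReal (((2 : ℝ) ^ k) ^ (q / 2) * ((k : ℝ) + 1)) := by
    rw [h1]
    refine (Finset.sum_le_sum h2).trans ?_
    rw [← ENNReal.ofReal_sum_of_nonneg fun n _ => by positivity]
    refine ENNReal.ofReal_le_ofReal ?_
    rw [← Finset.mul_sum]
    exact mul_le_mul_of_nonneg_left (harm k) (by positivity)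
  refine (ENNReal.rpow_le_rpow h3 (by positivity)).trans ?_
  rw [ENNReal.ofReal_rpow_of_nonneg (by positivity) (by positivity)]
  refine ENNReal.ofReal_le_ofReal (le_of_eq ?_)
  rw [Real.mul_rpow (by positivity) (by positivity), ← Real.rpow_mul (by positivity),
    Real.sqrt_eq_rpow]
  congr 2
  field_simp

lemma not_emb (q : ℝ) (hq : 1 < q) : ¬ EmbInto q (x : ℕ → H2 𝕜) := by
  rintro ⟨C, hC⟩
  have hq0 : 0 < q := by linarith
  -- the main inequality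
  have main : ∀ k : ℕ, (k : ℝ) ≤ 2 * C * ((k : ℝ) + 1) ^ (1 / q) := by
    intro k
    let a : ℕ →₀ 𝕜 := Finsupp.onFinset (Finset.range (2 ^ k))
      (fun n => if n < 2 ^ k then ((√(L n : ℝ) : ℝ) : 𝕜) else 0) (fun n hn => by
        rw [Finset.mem_range]
        by_contra h
        exact hn (if_neg h))
    have ha : ∀ i, i < 2 ^ k → a i = ((√(L i : ℝ) : ℝ) : 𝕜) := fun i hi => by
      show (if i < 2 ^ k then ((√(L i : ℝ) : ℝ) : 𝕜) else 0) = _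
      rw [if_pos hi]
    have ha' : ∀ i, i < 2 ^ k → ‖a i‖ = √(L i : ℝ) := fun i hi => by
      rw [ha i hi, RCLike.norm_ofReal, abs_of_nonneg (Real.sqrt_nonneg _)]
    have ha0 : ∀ i, 2 ^ k ≤ i → a i = 0 := fun i hi => by
      show (if i < 2 ^ k then ((√(L i : ℝ) : ℝ) : 𝕜) else 0) = _
      rw [if_neg (not_lt.2 hi)]
    have h1 := hC a
    have h2 : ∑ n ∈ a.support, a n • (x n : H2 𝕜) =
        ∑ n ∈ Finset.range (2 ^ k), ((√(L n : ℝ) : ℝ) : 𝕜) • (x n : H2 𝕜) := by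
      have h3 : ∑ n ∈ a.support, a n • (x n : H2 𝕜) =
          ∑ n ∈ Finset.range (2 ^ k), a n • (x n : H2 𝕜) := by
        refine Finset.sum_subset ?_ ?_
        · intro n hn
          rw [Finset.mem_range]
          by_contra h
          exact (Finsupp.mem_support_iff.1 hn) (ha0 n (not_lt.1 h))
        · intro n _ hn
          rw [Finsupp.notMem_support_iff.1 hn, zero_smul]
      rw [h3]
      exact Finset.sum_congr rfl fun n hn => by rw [ha n (Finset.mem_range.1 hn)]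
    rw [h2] at h1
    have h3 := h1.trans (mul_le_mul_right (lorentz_le q hq0 k a ha' ha0) _)
    have h4 : ‖∑ n ∈ Finset.range (2 ^ k), ((√(L n : ℝ) : ℝ) : 𝕜) • (x n : H2 𝕜)‖ ≤
        C * (√(2 ^ k : ℝ) * ((k : ℝ) + 1) ^ (1 / q)) := by
      have h5 : (C : ℝ≥0∞) = ENNReal.ofReal (C : ℝ) := (ENNReal.ofReal_coe_nnreal).symm
      rw [h5, ← ENNReal.ofReal_mul C.coe_nonneg, ← ofReal_norm] at h3
      exact (ENNReal.ofReal_le_ofReal_iff (by positivity)).1 h3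
    have h5 := test_X (𝕜 := 𝕜) k
    rw [← norm_sum_x (Finset.range (2 ^ k)) (fun n => ((√(L n : ℝ) : ℝ) : 𝕜))] at h5
    have h6 : (0 : ℝ) < √(2 ^ k : ℝ) := Real.sqrt_pos.2 (by positivity)
    have h7 : (k : ℝ) * √(2 ^ k : ℝ) ≤
        (2 * C * ((k : ℝ) + 1) ^ (1 / q)) * √(2 ^ k : ℝ) := by
      refine h5.trans ?_
      nlinarith
    exact le_of_mul_le_mul_right h7 h6
  -- growth
  have h1 : 0 < 1 - 1 / q := by
    rw [sub_pos, div_lt_one (by linarith)]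
    exact hq
  have h2 : Tendsto (fun k : ℕ => (4 * (C : ℝ)) * (((k : ℝ) + 1) ^ (-(1 - 1 / q)))) atTop
      (𝓝 ((4 * (C : ℝ)) * 0)) := by
    refine Tendsto.const_mul _ ?_
    exact (tendsto_rpow_neg_atTop h1).comp
      (tendsto_atTop_add_const_right _ _ tendsto_natCast_atTop_atTop)
  rw [mul_zero] at h2
  obtain ⟨k, hk1, hk2⟩ := ((h2.eventually (gt_mem_nhds (show (0 : ℝ) < 1 by norm_num))).and
    (eventually_ge_atTop 1)).exists
  have h3 := main k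
  have hk0 : (1 : ℝ) ≤ k := by exact_mod_cast hk2
  have hk3 : (0 : ℝ) < (k : ℝ) + 1 := by linarith
  have h4 : ((k : ℝ) + 1) ^ (-(1 - 1 / q)) * ((k : ℝ) + 1) = ((k : ℝ) + 1) ^ (1 / q) := by
    rw [← Real.rpow_add_one hk3.ne']
    congr 1
    ring
  have h5 : (4 * (C : ℝ)) * ((k : ℝ) + 1) ^ (1 / q) < (k : ℝ) + 1 := by
    rw [← h4, ← mul_assoc]
    nlinarith
  linarith

end Pool.Agent.Helper509.BD
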