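import Pool.Agent.Helper509.BD.Comb
import Pool.Agent.Helper509.BD.Defs

/-! The basis. -/

set_option autoImplicit false

open Filter Topology
open scoped ENNReal NNReal

universe u

namespace Pool.Agent.Helper509.BD

variable {𝕜 : Type u} [RCLike 𝕜]

/-! ### norms in `ℓ₂` -/

lemma two_toReal : ((2 : ℝ≥0∞).toReal) = 2 := by norm_num

lemma normsq (g : H2 𝕜) (S : Finset ℕ) (hg : ∀ s, s ∉ S → g s = 0) :
    ‖g‖ ^ 2 = ∑ s ∈ S, ‖g s‖ ^ 2 := by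
  have h := lp.norm_rpow_eq_tsum (by norm_num) g
  rw [two_toReal] at h
  simp only [Real.rpow_two] at h
  rw [h, tsum_eq_sum]
  intro s hs
  rw [hg s hs, norm_zero]
  norm_num

lemma normsq_le (g : H2 𝕜) (S : Finset ℕ) : ∑ s ∈ S, ‖g s‖ ^ 2 ≤ ‖g‖ ^ 2 := by
  have h := lp.sum_rpow_le_norm_rpow (by norm_num) g S
  rw [two_toReal] at h
  simpa only [Real.rpow_two] using h

/-- the unit vectors -/
noncomputable def e (n : ℕ) : H2 𝕜 := lp.single (E := fun _ : ℕ => 𝕜) 2 n (1 : 𝕜)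

lemma e_apply (n s : ℕ) : (e n : H2 𝕜) s = if s = n then 1 else 0 := by
  unfold e
  split_ifs with h
  · subst h; rw [lp.single_apply_self]
  · rw [lp.single_apply_ne _ _ _ h]

lemma sum_e_apply (F : Finset ℕ) (u : ℕ → 𝕜) (s : ℕ) :
    (∑ n ∈ F, u n • (e n : H2 𝕜)) s = if s ∈ F then u s else 0 := by
  simp only [lp.coeFn_sum, Finset.sum_apply, lp.coeFn_smul, Pi.smul_apply, smul_eq_mul, e_apply,
    mul_ite, mul_one, mul_zero, Finset.sum_ite_eq]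

lemma norm_sum_e (F : Finset ℕ) (u : ℕ → 𝕜) :
    ‖∑ n ∈ F, u n • (e n : H2 𝕜)‖ ^ 2 = ∑ n ∈ F, ‖u n‖ ^ 2 := by
  rw [normsq _ F]
  · refine Finset.sum_congr rfl fun s hs => ?_
    rw [sum_e_apply, if_pos hs]
  · intro s hs
    rw [sum_e_apply, if_neg hs]

/-- the vectors of the second component -/
noncomputable def W (n : ℕ) : H2 𝕜 := ∑ s ∈ cov n, ((r ^ v n : ℝ) : 𝕜) • e s

lemma W_apply (n s : ℕ) : (W n : H2 𝕜) s = ((w n s : ℝ) : 𝕜) := by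
  unfold W w
  rw [sum_e_apply (cov n) (fun _ => ((r ^ v n : ℝ) : 𝕜)) s]
  split_ifs <;> simp

lemma sum_W_apply (F : Finset ℕ) (u : ℕ → 𝕜) (s : ℕ) :
    (∑ n ∈ F, u n • (W n : H2 𝕜)) s = ∑ n ∈ F, u n * ((w n s : ℝ) : 𝕜) := by
  simp only [lp.coeFn_sum, Finset.sum_apply, lp.coeFn_smul, Pi.smul_apply, smul_eq_mul, W_apply]

lemma w_zero {n s N : ℕ} (hn : n < N) (hs : N ≤ s) : w n s = 0 := by
  unfold w
  rw [if_neg]
  intro h
  have := (mem_cov.1 h).1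
  omega

lemma sum_W_apply_zero (F : Finset ℕ) (u : ℕ → 𝕜) (N : ℕ) (hF : ∀ n ∈ F, n < N) (s : ℕ)
    (hs : N ≤ s) : (∑ n ∈ F, u n • (W n : H2 𝕜)) s = 0 := by
  rw [sum_W_apply]
  refine Finset.sum_eq_zero fun n hn => ?_
  rw [w_zero (hF n hn) hs]
  simp

lemma norm_sum_W_apply_le (F : Finset ℕ) (u : ℕ → 𝕜) (s : ℕ) :
    ‖(∑ n ∈ F, u n • (W n : H2 𝕜)) s‖ ≤ ∑ n ∈ F, ‖u n‖ * w n s := by
  rw [sum_W_apply]
  refine (norm_sum_le _ _).trans (Finset.sum_le_sum fun n _ => ?_)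
  rw [norm_mul, RCLike.norm_ofReal, abs_of_nonneg (w_nonneg n s)]

/-- democracy of the second component -/
lemma dem_W (A : Finset ℕ) (ε : ℕ → 𝕜) (hε : ∀ n, ‖ε n‖ = 1) :
    ‖∑ n ∈ A, ε n • (W n : H2 𝕜)‖ ^ 2 ≤ 16 * A.card := by
  rw [normsq _ (Finset.range (A.sup id + 1))]
  · refine le_trans (Finset.sum_le_sum fun s _ => ?_) (dem A (Finset.range (A.sup id + 1)))
    have h := norm_sum_W_apply_le A ε s
    simp only [hε, one_mul] at h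
    exact pow_le_pow_left₀ (norm_nonneg _) h 2
  · intro s hs
    refine sum_W_apply_zero A ε (A.sup id + 1) (fun n hn => ?_) s ?_
    · exact Nat.lt_succ_of_le (Finset.le_sup (f := id) hn)
    · rw [Finset.mem_range, not_lt] at hs
      exact hs

/-- partial sums of the second component -/
lemma part_W (F : Finset ℕ) (u : ℕ → 𝕜) (N : ℕ) :
    ‖∑ n ∈ F with n < N, u n • (W n : H2 𝕜)‖ ≤
      ‖∑ n ∈ F, u n • (W n : H2 𝕜)‖ + 3 * ‖∑ n ∈ F, u n • (e n : H2 𝕜)‖ := by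
  set g : H2 𝕜 := ∑ n ∈ F, u n • W n with hg
  set p : H2 𝕜 := ∑ n ∈ F with n < N, u n • W n with hp
  set q : H2 𝕜 := ∑ n ∈ F with ¬ n < N, u n • W n with hq
  have hpq : p + q = g := Finset.sum_filter_add_sum_filter_not F _ _
  set h : H2 𝕜 := ∑ s ∈ Finset.range N, (q s) • e s with hh
  have h1 : ‖p + h‖ ≤ ‖g‖ := by
    have h2 : ‖p + h‖ ^ 2 ≤ ‖g‖ ^ 2 := by
      rw [normsq (p + h) (Finset.range N)]
      · refine le_trans (le_of_eq (Finset.sum_congr rfl fun s hs => ?_))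
          (normsq_le g (Finset.range N))
        have h3 : (p + h) s = g s := by
          rw [← hpq, lp.coeFn_add, lp.coeFn_add, Pi.add_apply, Pi.add_apply, hh,
            sum_e_apply (Finset.range N) (fun s => q s) s, if_pos hs]
        rw [h3]
      · intro s hs
        rw [lp.coeFn_add, Pi.add_apply, hh, sum_e_apply (Finset.range N) (fun s => q s) s,
          if_neg hs, add_zero, hp]
        refine sum_W_apply_zero _ u N (fun n hn => (Finset.mem_filter.1 hn).2) s ?_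
        rwa [Finset.mem_range, not_lt] at hs
    exact (sq_le_sq₀ (norm_nonneg _) (norm_nonneg _)).1 h2
  have h2 : ‖h‖ ≤ 3 * ‖∑ n ∈ F, u n • (e n : H2 𝕜)‖ := by
    have h3 : ‖h‖ ^ 2 ≤ (3 * ‖∑ n ∈ F, u n • (e n : H2 𝕜)‖) ^ 2 := by
      rw [mul_pow, hh, norm_sum_e (Finset.range N) (fun s => q s), norm_sum_e F u]
      have h4 := part (Finset.filter (fun n => ¬ n < N) F) N
        (fun n hn => not_lt.1 (Finset.mem_filter.1 hn).2) (fun n => ‖u n‖)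
      have h5 : ∑ s ∈ Finset.range N, ‖q s‖ ^ 2 ≤
          8 * ∑ n ∈ F with ¬ n < N, ‖u n‖ ^ 2 := by
        refine le_trans (Finset.sum_le_sum fun s _ => ?_) h4
        exact pow_le_pow_left₀ (norm_nonneg _) (norm_sum_W_apply_le _ u s) 2
      have h6 : ∑ n ∈ F with ¬ n < N, ‖u n‖ ^ 2 ≤ ∑ n ∈ F, ‖u n‖ ^ 2 :=
        Finset.sum_le_sum_of_subset_of_nonneg (Finset.filter_subset _ _)
          fun n _ _ => sq_nonneg _
      have h7 : 0 ≤ ∑ n ∈ F, ‖u n‖ ^ 2 := Finset.sum_nonneg fun n _ => sq_nonneg _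
      linarith
    exact (sq_le_sq₀ (norm_nonneg _) (by positivity)).1 h3
  calc ‖p‖ = ‖(p + h) - h‖ := by rw [add_sub_cancel_right]
    _ ≤ ‖p + h‖ + ‖h‖ := norm_sub_le _ _
    _ ≤ _ := add_le_add h1 h2

/-! ### the sequence in the big space -/

/-- the big space -/
abbrev BB (𝕜 : Type u) [RCLike 𝕜] : Type u := WithLp 2 (H2 𝕜 × H2 𝕜)

/-- the sequence in the big space -/
noncomputable def X (n : ℕ) : BB 𝕜 := WithLp.toLp 2 (e n, W n)

/-- the coordinate functionals -/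
noncomputable def cf (n : ℕ) : BB 𝕜 →L[𝕜] 𝕜 :=
  LinearMap.mkContinuous
    { toFun := fun f => f.fst n
      map_add' := fun f g => by
        show (f + g).fst n = _
        rw [WithLp.add_fst, lp.coeFn_add, Pi.add_apply]
      map_smul' := fun c f => by
        show (c • f).fst n = _
        rw [WithLp.smul_fst, lp.coeFn_smul, Pi.smul_apply, RingHom.id_apply] } 1
    (fun f => by
      rw [one_mul]
      show ‖f.fst n‖ ≤ ‖f‖
      have h1 : ‖f.fst n‖ ≤ ‖f.fst‖ := lp.norm_apply_le_norm (by norm_num) f.fst n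
      have h2 := WithLp.prod_norm_sq_eq_of_L2 f
      have h3 : ‖f.fst‖ ≤ ‖f‖ := by
        refine (sq_le_sq₀ (norm_nonneg _) (norm_nonneg _)).1 ?_
        rw [h2]
        linarith [sq_nonneg ‖f.snd‖]
      exact h1.trans h3)

lemma cf_apply (n : ℕ) (f : BB 𝕜) : cf n f = f.fst n := rfl

lemma cf_norm (n : ℕ) : ‖(cf n : BB 𝕜 →L[𝕜] 𝕜)‖ ≤ 1 :=
  LinearMap.mkContinuous_norm_le _ zero_le_one _

lemma sum_X (F : Finset ℕ) (u : ℕ → 𝕜) :
    (∑ n ∈ F, u n • (X n : BB 𝕜)) =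
      WithLp.toLp 2 (∑ n ∈ F, u n • (e n : H2 𝕜), ∑ n ∈ F, u n • (W n : H2 𝕜)) := by
  classical
  induction F using Finset.induction_on with
  | empty =>
    simp only [Finset.sum_empty]
    rfl
  | insert a F ha ih =>
    rw [Finset.sum_insert ha, Finset.sum_insert ha, Finset.sum_insert ha, ih]
    rfl

lemma sum_X_fst (F : Finset ℕ) (u : ℕ → 𝕜) :
    (∑ n ∈ F, u n • (X n : BB 𝕜)).fst = ∑ n ∈ F, u n • (e n : H2 𝕜) := by
  rw [sum_X]; rfl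

lemma sum_X_snd (F : Finset ℕ) (u : ℕ → 𝕜) :
    (∑ n ∈ F, u n • (X n : BB 𝕜)).snd = ∑ n ∈ F, u n • (W n : H2 𝕜) := by
  rw [sum_X]; rfl

lemma cf_X (n k : ℕ) : cf n (X k : BB 𝕜) = if n = k then 1 else 0 := by
  rw [cf_apply]
  exact e_apply k n

lemma cf_sum_X (F : Finset ℕ) (u : ℕ → 𝕜) (n : ℕ) :
    cf n (∑ k ∈ F, u k • (X k : BB 𝕜)) = if n ∈ F then u n else 0 := by
  rw [cf_apply, sum_X_fst, sum_e_apply]

/-- the partial sums -/
noncomputable def S (N : ℕ) : BB 𝕜 →L[𝕜] BB 𝕜 :=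
  ∑ n ∈ Finset.range N, (cf n : BB 𝕜 →L[𝕜] 𝕜).smulRight (X n)

lemma S_apply (N : ℕ) (f : BB 𝕜) : S N f = ∑ n ∈ Finset.range N, cf n f • X n := by
  unfold S
  rw [sum_apply]
  rfl

lemma S_sum (N : ℕ) (F : Finset ℕ) (u : ℕ → 𝕜) :
    S N (∑ n ∈ F, u n • (X n : BB 𝕜)) = ∑ n ∈ F with n < N, u n • (X n : BB 𝕜) := by
  classical
  rw [S_apply]
  simp only [cf_sum_X, ite_smul, zero_smul]
  rw [← Finset.sum_filter]
  refine Finset.sum_congr ?_ fun _ _ => rfl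
  ext n
  simp only [Finset.mem_filter, Finset.mem_range]
  exact and_comm

lemma S_bound_sum (N : ℕ) (F : Finset ℕ) (u : ℕ → 𝕜) :
    ‖S N (∑ n ∈ F, u n • (X n : BB 𝕜))‖ ≤ 5 * ‖∑ n ∈ F, u n • (X n : BB 𝕜)‖ := by
  rw [S_sum]
  have h1 := WithLp.prod_norm_sq_eq_of_L2 (∑ n ∈ F with n < N, u n • (X n : BB 𝕜))
  have h2 := WithLp.prod_norm_sq_eq_of_L2 (∑ n ∈ F, u n • (X n : BB 𝕜))
  rw [sum_X_fst, sum_X_snd] at h1 h2
  have h3 := part_W F u N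
  have h4 : ‖∑ n ∈ F with n < N, u n • (e n : H2 𝕜)‖ ≤ ‖∑ n ∈ F, u n • (e n : H2 𝕜)‖ := by
    refine (sq_le_sq₀ (norm_nonneg _) (norm_nonneg _)).1 ?_
    rw [norm_sum_e, norm_sum_e]
    exact Finset.sum_le_sum_of_subset_of_nonneg (Finset.filter_subset _ _)
      fun n _ _ => sq_nonneg _
  set a := ‖∑ n ∈ F with n < N, u n • (e n : H2 𝕜)‖
  set b := ‖∑ n ∈ F with n < N, u n • (W n : H2 𝕜)‖
  set c := ‖∑ n ∈ F, u n • (e n : H2 𝕜)‖
  set d := ‖∑ n ∈ F, u n • (W n : H2 𝕜)‖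
  have ha : 0 ≤ a := norm_nonneg _
  have hb : 0 ≤ b := norm_nonneg _
  have hc : 0 ≤ c := norm_nonneg _
  have hd : 0 ≤ d := norm_nonneg _
  refine (sq_le_sq₀ (norm_nonneg _) (by positivity)).1 ?_
  rw [mul_pow, h1, h2]
  have h5 : b ^ 2 ≤ (d + 3 * c) ^ 2 := pow_le_pow_left₀ hb h3 2
  have h6 : a ^ 2 ≤ c ^ 2 := pow_le_pow_left₀ ha h4 2
  nlinarith [sq_nonneg (d - 3 * c)]

lemma S_bound (N : ℕ) (f : BB 𝕜) (hf : f ∈ closure (Submodule.span 𝕜 (Set.range (X : ℕ → BB 𝕜)) : Set (BB 𝕜))) :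
    ‖S N f‖ ≤ 5 * ‖f‖ := by
  have hcl : IsClosed {f : BB 𝕜 | ‖S N f‖ ≤ 5 * ‖f‖} :=
    isClosed_le ((S N).continuous.norm) (continuous_const.mul continuous_norm)
  refine hcl.closure_subset_iff.2 ?_ hf
  intro f hf
  obtain ⟨c, rfl⟩ := Finsupp.mem_span_range_iff_exists_finsupp.1 hf
  exact S_bound_sum N c.support c

lemma S_tendsto (f : BB 𝕜) (hf : f ∈ closure (Submodule.span 𝕜 (Set.range (X : ℕ → BB 𝕜)) : Set (BB 𝕜))) :
    Tendsto (fun N => S N f) atTop (𝓝 f) := by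
  rw [Metric.tendsto_atTop]
  intro δ hδ
  obtain ⟨g, hg, hfg⟩ := Metric.mem_closure_iff.1 hf (δ / 7) (by positivity)
  obtain ⟨c, hc⟩ := Finsupp.mem_span_range_iff_exists_finsupp.1 hg
  refine ⟨c.support.sup id + 1, fun N hN => ?_⟩
  have h1 : S N g = g := by
    rw [← hc]
    show S N (∑ n ∈ c.support, c n • X n) = _
    rw [S_sum, Finset.filter_true_of_mem]
    · rfl
    · intro n hn
      have := Finset.le_sup (f := id) hn
      simp only [id_eq] at this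
      omega
  have h2 : f - g ∈ closure (Submodule.span 𝕜 (Set.range (X : ℕ → BB 𝕜)) : Set (BB 𝕜)) := by
    have h3 : f ∈ (Submodule.span 𝕜 (Set.range (X : ℕ → BB 𝕜))).topologicalClosure := hf
    have h4 : g ∈ (Submodule.span 𝕜 (Set.range (X : ℕ → BB 𝕜))).topologicalClosure :=
      Submodule.le_topologicalClosure _ hg
    exact Submodule.sub_mem _ h3 h4
  have h3 := S_bound N (f - g) h2
  rw [dist_eq_norm] at hfg ⊢
  calc ‖S N f - f‖ = ‖S N (f - g) - (f - g)‖ := by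
        rw [map_sub, h1]
        congr 1
        abel
    _ ≤ ‖S N (f - g)‖ + ‖f - g‖ := norm_sub_le _ _
    _ ≤ 6 * ‖f - g‖ := by linarith
    _ < δ := by linarith [norm_nonneg (f - g)]

lemma dem_X (A : Finset ℕ) (ε : ℕ → 𝕜) (hε : ∀ n, ‖ε n‖ = 1) :
    ‖∑ n ∈ A, ε n • (X n : BB 𝕜)‖ ≤ 5 * √A.card := by
  have h1 := WithLp.prod_norm_sq_eq_of_L2 (∑ n ∈ A, ε n • (X n : BB 𝕜))
  rw [sum_X_fst, sum_X_snd, norm_sum_e] at h1
  simp only [hε, one_pow, Finset.sum_const, nsmul_eq_mul, mul_one] at h1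
  have h2 := dem_W A ε hε
  have h3 : (0 : ℝ) ≤ A.card := Nat.cast_nonneg _
  refine (sq_le_sq₀ (norm_nonneg _) (by positivity)).1 ?_
  rw [mul_pow, Real.sq_sqrt h3, h1]
  linarith

lemma dem_cf (A : Finset ℕ) (ε : ℕ → 𝕜) (hε : ∀ n, ‖ε n‖ = 1) (f : BB 𝕜) :
    ‖∑ n ∈ A, ε n * cf n f‖ ≤ √A.card * ‖f‖ := by
  have h3 : (0 : ℝ) ≤ A.card := Nat.cast_nonneg _
  have h1 : ‖∑ n ∈ A, ε n * cf n f‖ ≤ ∑ n ∈ A, ‖cf n f‖ := by
    refine (norm_sum_le _ _).trans (le_of_eq (Finset.sum_congr rfl fun n _ => ?_))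
    rw [norm_mul, hε, one_mul]
  have h2 : (∑ n ∈ A, ‖cf n f‖) ^ 2 ≤ A.card * ∑ n ∈ A, ‖cf n f‖ ^ 2 :=
    sq_sum_le_card_mul_sum_sq
  have h4 : ∑ n ∈ A, ‖cf n f‖ ^ 2 ≤ ‖f‖ ^ 2 := by
    have h5 := WithLp.prod_norm_sq_eq_of_L2 f
    have h6 := normsq_le f.fst A
    rw [h5]
    have : ∑ n ∈ A, ‖cf n f‖ ^ 2 = ∑ s ∈ A, ‖f.fst s‖ ^ 2 := rfl
    rw [this]
    linarith [sq_nonneg ‖f.snd‖]
  refine h1.trans ?_
  refine (sq_le_sq₀ (Finset.sum_nonneg fun n _ => norm_nonneg _) (by positivity)).1 ?_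
  rw [mul_pow, Real.sq_sqrt h3]
  nlinarith

/-- the test vectors -/
lemma test_X (k : ℕ) :
    (k : ℝ) * √(2 ^ k : ℝ) ≤
      2 * ‖∑ n ∈ Finset.range (2 ^ k), ((√(L n : ℝ) : ℝ) : 𝕜) • (X n : BB 𝕜)‖ := by
  have h1 := WithLp.prod_norm_sq_eq_of_L2
    (∑ n ∈ Finset.range (2 ^ k), ((√(L n : ℝ) : ℝ) : 𝕜) • (X n : BB 𝕜))
  rw [sum_X_fst, sum_X_snd] at h1
  have h2 : ‖∑ n ∈ Finset.range (2 ^ k), ((√(L n : ℝ) : ℝ) : 𝕜) • (W n : H2 𝕜)‖ ^ 2 =
      ∑ s ∈ Finset.range (2 ^ k), (∑ n ∈ Finset.range (2 ^ k), √(L n : ℝ) * w n s) ^ 2 := by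
    rw [normsq _ (Finset.range (2 ^ k))]
    · refine Finset.sum_congr rfl fun s _ => ?_
      rw [sum_W_apply]
      have h3 : ∑ n ∈ Finset.range (2 ^ k), ((√(L n : ℝ) : ℝ) : 𝕜) * ((w n s : ℝ) : 𝕜) =
          ((∑ n ∈ Finset.range (2 ^ k), √(L n : ℝ) * w n s : ℝ) : 𝕜) := by
        push_cast; rfl
      rw [h3, RCLike.norm_ofReal, sq_abs]
    · intro s hs
      refine sum_W_apply_zero _ _ (2 ^ k) (fun n hn => Finset.mem_range.1 hn) s ?_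
      rwa [Finset.mem_range, not_lt] at hs
  have h3 := test_low k
  rw [h2] at h1
  refine (sq_le_sq₀ (by positivity) (by positivity)).1 ?_
  rw [mul_pow, mul_pow, Real.sq_sqrt (by positivity), h1]
  nlinarith [sq_nonneg ‖∑ n ∈ Finset.range (2 ^ k), ((√(L n : ℝ) : ℝ) : 𝕜) • (e n : H2 𝕜)‖]

end Pool.Agent.Helper509.BD
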